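import Mathlib

set_option autoImplicit false

/-!
# Mixed metric dimension: definitions
-/

namespace Pool.Agent.N418.MMD

open SimpleGraph

universe u

variable {V : Type u}

/-- The distance from the vertex `w` to a vertex `v`, respectively to an edge `e`: the latter is the
least distance from `w` to an end of `e`. -/
noncomputable def eltDist (G : SimpleGraph V) (w : V) : V ⊕ G.edgeSet → ℕ
  | Sum.inl v => G.dist w v
  | Sum.inr e => sInf ((fun x => G.dist w x) '' {x | x ∈ (e : Sym2 V)})

/-- `S` is a mixed resolving set of `G`: any two distinct elements of `V(G) ∪ E(G)` have different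
distances to some member of `S`. -/
def MixedResolving (G : SimpleGraph V) (S : Set V) : Prop :=
  ∀ x y : V ⊕ G.edgeSet, x ≠ y → ∃ s ∈ S, eltDist G s x ≠ eltDist G s y

/-- The mixed metric dimension: the smallest size of a mixed resolving set. -/
noncomputable def mdim (G : SimpleGraph V) : ℕ :=
  sInf {k | ∃ S : Set V, MixedResolving G S ∧ S.ncard = k}

/-- The cyclomatic number `|E| - |V| + 1`. -/
noncomputable def cyclomatic (G : SimpleGraph V) : ℤ :=
  (G.edgeSet.ncard : ℤ) - (Nat.card V : ℤ) + 1

/-- `G` is 2-connected: it has at least three vertices, is connected, and has no cut-vertex. -/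
def TwoConnected (G : SimpleGraph V) : Prop :=
  3 ≤ Nat.card V ∧ G.Connected ∧ ∀ v : V, (G.induce {x | x ≠ v}).Connected

end Pool.Agent.N418.MMD
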