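import Pool.Agent.N418.MMD.Defs
import Pool.Agent.Helper431.Core5
import Pool.Agent.Helper431.CycleIso

set_option autoImplicit false

/-!
# Mixed metric dimension of 2-connected graphs: proof
-/

namespace Pool.Agent.N418.MMD

open SimpleGraph

universe u

variable {V : Type u}

theorem eltDist_edge (G : SimpleGraph V) (w : V) {a b : V} (h : G.Adj a b) :
    eltDist G w (Sum.inr ⟨s(a, b), h⟩) = min (G.dist w a) (G.dist w b) := by
  show sInf ((fun x => G.dist w x) '' {x | x ∈ s(a, b)}) = _
  have : (fun x => G.dist w x) '' {x | x ∈ s(a, b)} = {G.dist w a, G.dist w b} := by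
    ext k
    simp only [Set.mem_image, Set.mem_ofPred_eq, Sym2.mem_iff, Set.mem_insert_iff,
      Set.mem_singleton_iff]
    constructor
    · rintro ⟨x, rfl | rfl, rfl⟩
      · exact Or.inl rfl
      · exact Or.inr rfl
    · rintro (rfl | rfl)
      · exact ⟨a, Or.inl rfl, rfl⟩
      · exact ⟨b, Or.inr rfl, rfl⟩
  rw [this]
  exact csInf_pair _ _

theorem of_MR {G : SimpleGraph V} {S : Set V} (h : Pool.Agent.Helper431.MR G S) :
    MixedResolving G S := by
  rintro (x | ⟨e, he⟩) (y | ⟨f, hf⟩) hxy
  · exact h.vv x y (fun h' => hxy (by rw [h']))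
  · induction f using Sym2.ind with
    | _ a b =>
      obtain ⟨s, hs, h'⟩ := h.ve x a b hf
      refine ⟨s, hs, ?_⟩
      rw [eltDist_edge G s hf]
      exact h'
  · induction e using Sym2.ind with
    | _ a b =>
      obtain ⟨s, hs, h'⟩ := h.ve y a b he
      refine ⟨s, hs, ?_⟩
      rw [eltDist_edge G s he]
      exact h'.symm
  · induction e using Sym2.ind with
    | _ a b =>
      induction f using Sym2.ind with
      | _ c d =>
        have hne : s(a, b) ≠ s(c, d) := fun h' => hxy (by simp only [h'])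
        obtain ⟨s, hs, h'⟩ := h.ee a b c d he hf
          (fun h1 => hne (by rw [h1.1, h1.2]))
          (fun h1 => hne (by rw [h1.1, h1.2]; exact Sym2.eq_swap))
        refine ⟨s, hs, ?_⟩
        rw [eltDist_edge G s he, eltDist_edge G s hf]
        exact h'

/-- 2-connected graphs have minimum degree at least two. -/
theorem two_le_degree [Fintype V] {G : SimpleGraph V} [DecidableRel G.Adj] (h : TwoConnected G)
    (v : V) : 2 ≤ G.degree v := by
  classical
  obtain ⟨h3, hc, hcut⟩ := h
  rw [Nat.card_eq_fintype_card] at h3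
  by_contra hlt
  push Not at hlt
  have hnt : Nontrivial V := Fintype.one_lt_card_iff_nontrivial.1 (by omega)
  have hpos : 0 < G.degree v := hc.preconnected.degree_pos_of_nontrivial v
  have h1 : G.degree v = 1 := by omega
  obtain ⟨u, hu, huniq⟩ := (degree_eq_one_iff_existsUnique_adj).1 h1
  -- a third vertex
  obtain ⟨w, hw⟩ : ∃ w, w ∉ ({u, v} : Finset V) := by
    by_contra hcon
    push Not at hcon
    have : (Finset.univ : Finset V) ⊆ {u, v} := fun x _ => hcon x
    have h4 := Finset.card_le_card this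
    have h5 : ({u, v} : Finset V).card ≤ 2 := Finset.card_le_two
    rw [Finset.card_univ] at h4
    omega
  simp only [Finset.mem_insert, Finset.mem_singleton, not_or] at hw
  have hvu : v ≠ u := hu.ne
  obtain ⟨p⟩ := (hcut u).preconnected ⟨v, hvu⟩ ⟨w, hw.1⟩
  cases p with
  | nil => exact hw.2 rfl
  | @cons _ x _ hx _ =>
    have hx' : G.Adj v x.1 := hx
    exact x.2 (huniq x.1 hx')

/-- Every finite 2-connected graph `G` that is not a cycle has mixed resolving sets, and its mixed
metric dimension is at most `2 c(G)`. -/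
theorem main (V : Type u) [Finite V] (G : SimpleGraph V) (h2 : TwoConnected G)
    (hcycle : ∀ n : ℕ, IsEmpty (G ≃g cycleGraph n)) :
    (∃ S : Set V, MixedResolving G S) ∧ (mdim G : ℤ) ≤ 2 * cyclomatic G := by
  classical
  have := Fintype.ofFinite V
  have hdeg : ∀ v, 2 ≤ G.degree v := two_le_degree h2
  have h3 : ∃ v : V, 3 ≤ G.degree v := by
    by_contra hcon
    push Not at hcon
    obtain ⟨n, ⟨e⟩⟩ := Pool.Agent.Helper431.exists_iso_cycleGraph h2.2.1 hdeg
      (fun v => by have := hcon v; omega)
    exact (hcycle n).false e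
  obtain ⟨r, S, -, hcard, hS, -⟩ := Pool.Agent.Helper431.core h2.2.1 hdeg h3
  have hM := of_MR hS
  refine ⟨⟨_, hM⟩, ?_⟩
  have h4 : mdim G ≤ S.card := Nat.sInf_le ⟨(S : Set V), hM, Set.ncard_coe_finset S⟩
  have h5 : G.edgeSet.ncard = G.edgeFinset.card := by
    rw [← coe_edgeFinset, Set.ncard_coe_finset]
  unfold cyclomatic
  rw [h5, Nat.card_eq_fintype_card]
  omega

end Pool.Agent.N418.MMD
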